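import Mathlib

/-
Legendre polynomials: a bound on the interval and a convolution identity.
-/

namespace Pool.Agent.MP_66cee2_co.H44L

open Polynomial Finset Nat

/-- the coefficients. -/
noncomputable def rc (l k : ℕ) : ℝ := (l.choose k : ℝ) * ((l + k).choose l : ℝ)

/-- the polynomial `P_l (1 + 2 w)`. -/
noncomputable def RR (l : ℕ) : ℝ[X] := ∑ k ∈ range (l + 1), monomial k (rc l k)

theorem RR_coeff (l k : ℕ) : (RR l).coeff k = rc l k := by
  rw [RR, finsetSum_coeff]
  simp only [coeff_monomial, sum_ite_eq', mem_range]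
  split_ifs with h
  · rfl
  · simp [rc, Nat.choose_eq_zero_of_lt (show l < k by omega)]

theorem RR_deg (l : ℕ) : (RR l).natDegree ≤ l :=
  natDegree_sum_le_of_forall_le _ _ fun k hk =>
    (natDegree_monomial_le _).trans (by simpa [Nat.lt_succ_iff] using hk)

theorem RR_eval (l : ℕ) (w : ℝ) : (RR l).eval w = ∑ k ∈ range (l + 1), rc l k * w ^ k := by
  simp [RR, eval_finsetSum]

theorem rc_succ (l k : ℕ) :
    rc l (k + 1) * ((k : ℝ) + 1) ^ 2 = ((l : ℝ) * (l + 1) - k * (k + 1)) * rc l k := by
  rcases le_or_gt k l with h | h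
  · have h1 : ((l.choose (k + 1) : ℝ)) * (k + 1) = l.choose k * ((l : ℝ) - k) := by
      have := Nat.choose_succ_right_eq l k
      rw [← Nat.cast_sub h]; exact_mod_cast this
    have h2 : (((l + k).choose l : ℝ)) * (l + k + 1) = (l + (k + 1)).choose l * ((k : ℝ) + 1) := by
      have := Nat.choose_mul_succ_eq (l + k) l
      rw [show l + k + 1 - l = k + 1 by omega] at this
      exact_mod_cast this
    rw [rc, rc]
    linear_combination ((l + (k + 1)).choose l * ((k : ℝ) + 1)) * h1 -
      (l.choose k * ((l : ℝ) - k)) * h2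
  · simp [rc, Nat.choose_eq_zero_of_lt h, Nat.choose_eq_zero_of_lt (show l < k + 1 by omega)]

theorem coeff_theta (f : ℝ[X]) (n : ℕ) : (X * derivative f).coeff n = n * f.coeff n := by
  cases n with
  | zero => simp
  | succ n => rw [coeff_X_mul, coeff_derivative]; push_cast; ring

theorem ode (l : ℕ) : X * (1 + X) * derivative (derivative (RR l)) +
    (1 + 2 * X) * derivative (RR l) = C ((l : ℝ) * (l + 1)) * RR l := by
  have : X * derivative (derivative (RR l)) + derivative (RR l) +
      X * derivative (X * derivative (RR l)) + X * derivative (RR l) =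
      C ((l : ℝ) * (l + 1)) * RR l := by
    ext n
    simp only [coeff_add, coeff_theta, coeff_C_mul, coeff_derivative, RR_coeff]
    linear_combination rc_succ l n
  rw [← this, derivative_mul, derivative_X]
  ring

theorem odeM (l m : ℕ) : X * (1 + X) * derivative (derivative (derivative^[m] (RR l))) +
    C ((m : ℝ) + 1) * (1 + 2 * X) * derivative (derivative^[m] (RR l)) =
    C ((l : ℝ) * (l + 1) - m * (m + 1)) * derivative^[m] (RR l) := by
  induction m with
  | zero => simpa using ode l
  | succ m ih =>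
    have := congrArg derivative ih
    rw [Function.iterate_succ_apply']
    simp only [derivative_add, derivative_mul, derivative_X, derivative_C, derivative_one,
      derivative_ofNat] at this
    simp only [map_sub, map_add, map_mul, map_one, Nat.cast_add, Nat.cast_one] at this ⊢
    linear_combination this

/-- the Taylor pieces. -/
noncomputable def HH (l m : ℕ) : ℝ[X] := (1 + X) ^ m * derivative^[m] (RR l)

theorem HH_succ (l m : ℕ) : X * derivative (HH l (m + 1)) + C ((m : ℝ) + 1) * HH l (m + 1) =
    C ((l : ℝ) * (l + 1) - m * (m + 1)) * HH l m := by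
  have := odeM l m
  rw [HH, HH, Function.iterate_succ_apply', derivative_mul, derivative_pow]
  simp only [derivative_add, derivative_X, derivative_one, Nat.add_sub_cancel, Nat.cast_add,
    Nat.cast_one]
  linear_combination (1 + X) ^ m * this

theorem HH_coeff (l m n : ℕ) :
    (HH l m).coeff n * ((m + n)! : ℝ) = m ! * (m ! * rc l m) * (n ! * rc l n) := by
  induction m with
  | zero => simp [HH, RR_coeff, rc, mul_comm]
  | succ m ih =>
    have h := congrArg (fun f => coeff f n) (HH_succ l m)
    simp only [coeff_add, coeff_theta, coeff_C_mul] at h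
    rw [show m + 1 + n = (m + n) + 1 by omega, Nat.factorial_succ, Nat.factorial_succ]
    push_cast
    linear_combination ((m + n)! : ℝ) * h + ((l : ℝ) * (l + 1) - m * (m + 1)) * ih -
      (m ! * m ! * (n ! * rc l n) : ℝ) * rc_succ l m

theorem taylor_sum (f : ℝ[X]) (M : ℕ) (h : f.natDegree < M) (p q : ℝ) :
    f.eval (p + q) = ∑ m ∈ range M, (derivative^[m] f).eval p / m ! * q ^ m := by
  rw [add_comm, ← taylor_eval, eval_eq_sum_range' (by rwa [natDegree_taylor])]
  refine sum_congr rfl fun m _ => ?_
  rw [taylor_coeff, ← factorial_smul_hasseDeriv]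
  have : (m ! : ℝ) ≠ 0 := by positivity
  rw [LinearMap.smul_apply, eval_smul, nsmul_eq_mul]
  field_simp

/-- the kernel. -/
noncomputable def KK (l : ℕ) (a b : ℝ) : ℝ[X] := (RR l).comp (C (a * b) * X ^ 2 + C (a + b) * X)

theorem KK_eval (l : ℕ) (a b t : ℝ) :
    (KK l a b).eval t = (RR l).eval (a * b * t ^ 2 + (a + b) * t) := by simp [KK, eval_comp]

theorem KK_sum (l M : ℕ) (h : l < M) (a b : ℝ) :
    KK l a b = ∑ m ∈ range M, C (a ^ m / m !) * (X ^ m * (HH l m).comp (C b * X)) := by
  refine Polynomial.funext fun t => ?_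
  rw [KK_eval, show a * b * t ^ 2 + (a + b) * t = b * t + a * t * (1 + b * t) by ring,
    taylor_sum _ M ((RR_deg l).trans_lt h), eval_finsetSum]
  refine sum_congr rfl fun m _ => ?_
  simp only [HH, eval_mul, eval_C, eval_pow, eval_X, eval_comp, eval_add, eval_one, mul_pow]
  ring

/-- the Borel transform. -/
noncomputable def Bo : ℝ[X] →ₗ[ℝ] ℝ[X] := lsum fun n => (n ! : ℝ) • monomial n

theorem Bo_mono (n : ℕ) (a : ℝ) : Bo (monomial n a) = monomial n (n ! * a) := by
  simp [Bo, sum_monomial_index, smul_monomial]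

theorem Bo_coeff (f : ℝ[X]) (n : ℕ) : (Bo f).coeff n = n ! * f.coeff n := by
  induction f using Polynomial.induction_on' with
  | add p q hp hq => simp only [map_add, coeff_add, hp, hq, mul_add]
  | monomial k a =>
    rw [Bo_mono, coeff_monomial, coeff_monomial]
    split_ifs with h
    · rw [h]
    · simp

/-- the Bessel polynomial. -/
noncomputable def YY (l : ℕ) (a : ℝ) : ℝ[X] := Bo ((RR l).comp (C a * X))

theorem YY_coeff (l n : ℕ) (a : ℝ) : (YY l a).coeff n = n ! * rc l n * a ^ n := by
  rw [YY, Bo_coeff, comp_C_mul_X_coeff, RR_coeff, mul_assoc]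

theorem Bo_KK (l : ℕ) (a b : ℝ) : Bo (KK l a b) = YY l a * YY l b := by
  ext N
  rw [Bo_coeff, KK_sum l (N + 1 + l) (by omega), finsetSum_coeff, coeff_mul,
    Finset.Nat.sum_antidiagonal_eq_sum_range_succ_mk, sum_range_add, mul_add]
  have z : ∑ x ∈ range l, (C (a ^ (N + 1 + x) / (N + 1 + x)!) *
      (X ^ (N + 1 + x) * (HH l (N + 1 + x)).comp (C b * X))).coeff N = 0 :=
    sum_eq_zero fun x _ => by rw [coeff_C_mul, coeff_X_pow_mul', if_neg (by omega), mul_zero]
  rw [z, mul_zero, add_zero, mul_sum]
  refine sum_congr rfl fun m hm => ?_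
  have hm' : m ≤ N := Nat.lt_succ_iff.1 (mem_range.1 hm)
  have h := HH_coeff l m (N - m)
  rw [Nat.add_sub_cancel' hm'] at h
  have : (m ! : ℝ) ≠ 0 := by positivity
  rw [coeff_C_mul, coeff_X_pow_mul', if_pos hm', comp_C_mul_X_coeff, YY_coeff, YY_coeff]
  field_simp
  linear_combination (a ^ m * b ^ (N - m)) * h

theorem beta (u : ℝ) (m n : ℕ) :
    ∫ s in (0 : ℝ)..u, s ^ m * (u - s) ^ n = m ! * n ! * (u ^ (m + n + 1) / (m + n + 1)!) := by
  induction n generalizing m with
  | zero =>
    have : (m ! : ℝ) ≠ 0 := by positivity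
    simp only [pow_zero, mul_one, integral_pow, add_zero, Nat.factorial_succ, Nat.factorial_zero]
    push_cast
    field_simp
    simp
  | succ n ih =>
    have e : ∀ s : ℝ, s ^ m * (u - s) ^ (n + 1) =
        u * (s ^ m * (u - s) ^ n) - s ^ (m + 1) * (u - s) ^ n := fun s => by ring
    simp only [e]
    rw [intervalIntegral.integral_sub (Continuous.intervalIntegrable (by fun_prop) _ _)
      (Continuous.intervalIntegrable (by fun_prop) _ _), intervalIntegral.integral_const_mul,
      ih, ih, show m + 1 + n + 1 = (m + n + 1) + 1 by omega,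
      show m + (n + 1) + 1 = (m + n + 1) + 1 by omega, Nat.factorial_succ (m + n + 1),
      Nat.factorial_succ m, Nat.factorial_succ n]
    have : ((m + n + 1)! : ℝ) ≠ 0 := by positivity
    push_cast
    field_simp
    ring

/-- the inverse transform, integrated once. -/
noncomputable def TT (u : ℝ) : ℝ[X] →ₗ[ℝ] ℝ :=
  lsum fun n => (u ^ (n + 1) / (n + 1)! : ℝ) • LinearMap.id

theorem TT_mono (u : ℝ) (n : ℕ) (a : ℝ) : TT u (monomial n a) = u ^ (n + 1) / (n + 1)! * a := by
  simp [TT, sum_monomial_index]

theorem conv (u : ℝ) (f g : ℝ[X]) :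
    ∫ s in (0 : ℝ)..u, f.eval s * g.eval (u - s) = TT u (Bo f * Bo g) := by
  induction f using Polynomial.induction_on' with
  | add p q hp hq =>
    simp only [eval_add, add_mul, map_add]
    rw [intervalIntegral.integral_add (Continuous.intervalIntegrable (by fun_prop) _ _)
      (Continuous.intervalIntegrable (by fun_prop) _ _), hp, hq]
  | monomial m a =>
    induction g using Polynomial.induction_on' with
    | add p q hp hq =>
      simp only [eval_add, mul_add, map_add]
      rw [intervalIntegral.integral_add (Continuous.intervalIntegrable (by fun_prop) _ _)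
        (Continuous.intervalIntegrable (by fun_prop) _ _), hp, hq]
    | monomial n b =>
      have e : ∀ s : ℝ, a * s ^ m * (b * (u - s) ^ n) = a * b * (s ^ m * (u - s) ^ n) :=
        fun s => by ring
      simp only [eval_monomial, e]
      rw [intervalIntegral.integral_const_mul, beta, Bo_mono, Bo_mono, monomial_mul_monomial,
        TT_mono]
      ring

theorem conv_KK (l : ℕ) (a b c d u : ℝ) :
    ∫ s in (0 : ℝ)..u, (KK l a b).eval s * (KK l c d).eval (u - s) =
      ∫ s in (0 : ℝ)..u, (KK l a c).eval s * (KK l b d).eval (u - s) := by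
  rw [conv, conv, Bo_KK, Bo_KK, Bo_KK, Bo_KK, mul_mul_mul_comm]

theorem RR_symm (l : ℕ) (w : ℝ) : |(RR l).eval w| = |(RR l).eval (-1 - w)| := by
  have e : ∀ w : ℝ, (RR l).eval w = aeval (-w) (shiftedLegendre l) := fun w => by
    rw [RR_eval, shiftedLegendre, map_sum]
    refine sum_congr rfl fun k _ => ?_
    simp only [map_mul, map_pow, aeval_X, eq_intCast, map_intCast, rc]
    push_cast
    rw [neg_pow w]
    have : ((-1 : ℝ) ^ k) * (-1) ^ k = 1 := by rw [← mul_pow]; simp
    linear_combination (-(l.choose k : ℝ) * ((l + k).choose l : ℝ) * w ^ k) * this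
  rw [e, e, shiftedLegendre_eval_symm, abs_mul, abs_pow, abs_neg, abs_one, one_pow, one_mul,
    show 1 - -w = -(-1 - w) by ring]

theorem RR_half (l : ℕ) (w : ℝ) (h1 : -1 / 2 ≤ w) (h2 : w ≤ 0) : |(RR l).eval w| ≤ 1 := by
  rcases Nat.eq_zero_or_pos l with rfl | hl
  · simp [RR_eval, rc]
  have L0 : (0 : ℝ) < l * (l + 1) := by positivity
  set f : ℝ[X] := C ((l : ℝ) * (l + 1)) * RR l ^ 2 - X * (1 + X) * derivative (RR l) ^ 2 with hf
  have df : derivative f = (1 + 2 * X) * derivative (RR l) ^ 2 := by
    have := ode l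
    rw [hf]
    simp only [derivative_sub, derivative_mul, derivative_C, derivative_sq, derivative_X,
      derivative_add, derivative_one, map_ofNat]
    linear_combination (-2 * derivative (RR l)) * this
  have mono : MonotoneOn (fun x => f.eval x) (Set.Icc (-1 / 2) 0) := by
    refine monotoneOn_of_deriv_nonneg (convex_Icc _ _) (by fun_prop) (by fun_prop) fun x hx => ?_
    rw [interior_Icc] at hx
    rw [Polynomial.deriv, df]
    simp only [eval_mul, eval_add, eval_one, eval_X, eval_pow, eval_ofNat]
    exact mul_nonneg (by linarith [hx.1]) (sq_nonneg _)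
  have := mono ⟨h1, h2⟩ ⟨by norm_num, le_rfl⟩ h2
  have r0 : (RR l).eval 0 = 1 := by rw [← coeff_zero_eq_eval_zero, RR_coeff]; simp [rc]
  simp only [hf, eval_sub, eval_mul, eval_C, eval_pow, eval_X, eval_add, eval_one, r0] at this
  have p : 0 ≤ -w * (1 + w) * (eval w (derivative (RR l))) ^ 2 :=
    mul_nonneg (mul_nonneg (by linarith) (by linarith)) (sq_nonneg _)
  rw [← sq_le_one_iff_abs_le_one]
  exact le_of_mul_le_mul_left (by nlinarith) L0

theorem RR_bd (l : ℕ) (w : ℝ) (h1 : -1 ≤ w) (h2 : w ≤ 0) : |(RR l).eval w| ≤ 1 := by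
  rcases le_total (-1 / 2) w with h | h
  · exact RR_half l w h h2
  · rw [RR_symm]
    exact RR_half l _ (by linarith) (by linarith)

end Pool.Agent.MP_66cee2_co.H44L
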