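import Pool.Agent.MP_66cee2_co.B.Spec
import Pool.Agent.MP_66cee2_co.H44L.Leg

/-
A one-dimensional certificate: a square of a cosine transform that is close to the cosine
transform of an even polynomial on the unit interval.
-/

namespace Pool.Agent.MP_66cee2_co.H44L

open Polynomial MeasureTheory Nat Pool.Agent.MP_66cee2_co.B

/-- the profile `P_l (5 / 4 - v ^ 2)`. -/
noncomputable def Ga (l : ℕ) : ℝ[X] := (RR l).comp (C (1 / 8) - C (1 / 2) * X ^ 2)

theorem Ga_eval (l : ℕ) (v : ℝ) : (Ga l).eval v = (RR l).eval (1 / 8 - 1 / 2 * v ^ 2) := by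
  simp [Ga, eval_comp]

theorem Ga_even (l : ℕ) (v : ℝ) : (Ga l).eval (-v) = (Ga l).eval v := by
  rw [Ga_eval, Ga_eval, neg_sq]

theorem Ga_deg (l : ℕ) : (Ga l).natDegree ≤ 2 * l := by
  refine natDegree_comp_le.trans ?_
  rw [mul_comm 2]
  exact Nat.mul_le_mul (RR_deg l) (by compute_degree)

theorem rc_nonneg (l k : ℕ) : 0 ≤ rc l k := by unfold rc; positivity

theorem term_le (l m : ℕ) (hm : m ≤ l) (w : ℝ) (hw : 0 ≤ w) : rc l m * w ^ m ≤ (RR l).eval w := by
  rw [RR_eval]
  exact Finset.single_le_sum (f := fun k => rc l k * w ^ k)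
    (fun k _ => mul_nonneg (rc_nonneg l k) (pow_nonneg hw k)) (Finset.mem_range.2 (by omega))

theorem one_le_Ga (l : ℕ) (v : ℝ) (h1 : -(1 / 2) ≤ v) (h2 : v ≤ 1 / 2) : 1 ≤ (Ga l).eval v := by
  have := term_le l 0 (by omega) (1 / 8 - 1 / 2 * v ^ 2) (by nlinarith)
  rw [Ga_eval]
  simpa [rc] using this

theorem edge (l : ℕ) (u : ℝ) (h0 : 0 ≤ u) (h1 : u ≤ 1) :
    |∫ s in (0 : ℝ)..u, (Ga l).eval (s - 1 / 2) * (Ga l).eval (u - (s - 1 / 2))| ≤ 1 := by
  have e : ∀ s : ℝ, (Ga l).eval (s - 1 / 2) * (Ga l).eval (u - (s - 1 / 2)) =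
      (KK l 1 (-1 / 2)).eval s * (KK l (-1) (1 / 2)).eval (u - s) := fun s => by
    rw [Ga_eval, Ga_eval, KK_eval, KK_eval]
    congr 2 <;> ring
  simp only [e]
  rw [conv_KK]
  have := intervalIntegral.norm_integral_le_of_norm_le_const (a := (0 : ℝ)) (b := u) (C := 1)
    (f := fun s => (KK l 1 (-1)).eval s * (KK l (-1 / 2) (1 / 2)).eval (u - s)) fun s hs => by
    rw [Set.uIoc_of_le h0] at hs
    rw [Real.norm_eq_abs, abs_mul, KK_eval, KK_eval]
    have a1 := hs.1
    have a2 := hs.2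
    exact mul_le_one₀ (RR_bd l _ (by nlinarith) (by nlinarith)) (abs_nonneg _)
      (RR_bd l _ (by nlinarith) (by nlinarith))
  rw [Real.norm_eq_abs, sub_zero, abs_of_nonneg h0] at this
  linarith

theorem mass (l : ℕ) :
    2 ^ l / (4 * (2 * l + 1) ^ 2) ≤ ∫ v in (-(1 / 2) : ℝ)..(1 / 2), (Ga l).eval v := by
  obtain ⟨m, hm1, hm2⟩ : ∃ m, 3 * m ≤ l ∧ l ≤ 3 * m + 2 := ⟨l / 3, by omega, by omega⟩
  have e1 : ∫ v in (-(1 / 2) : ℝ)..(1 / 2), (Ga l).eval v =
      ∫ s in (0 : ℝ)..1, (Ga l).eval (s - 1 / 2) := by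
    rw [intervalIntegral.integral_comp_sub_right (fun v => (Ga l).eval v)]
    norm_num
  have e2 : ∫ s in (0 : ℝ)..1, rc l m / 2 ^ m * (s ^ m * (1 - s) ^ m) ≤
      ∫ s in (0 : ℝ)..1, (Ga l).eval (s - 1 / 2) := by
    refine intervalIntegral.integral_mono_on (by norm_num)
      (Continuous.intervalIntegrable (by fun_prop) _ _)
      (Continuous.intervalIntegrable (by fun_prop) _ _) fun s hs => ?_
    have := term_le l m (by omega) (s * (1 - s) / 2) (by nlinarith [hs.1, hs.2])
    rw [Ga_eval, show 1 / 8 - 1 / 2 * (s - 1 / 2) ^ 2 = s * (1 - s) / 2 by ring]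
    refine le_trans (le_of_eq ?_) this
    rw [div_pow, mul_pow]; ring
  rw [intervalIntegral.integral_const_mul, beta, one_pow] at e2
  rw [e1]
  refine le_trans ?_ e2
  have c1 : (l + m).choose l * l.choose m = (l + m).choose (2 * m) * (2 * m).choose m := by
    have a1 := Nat.choose_mul (n := l + m) (k := l) (s := l - m) (by omega)
    have a2 := Nat.choose_mul (n := l + m) (k := 2 * m) (s := m) (by omega)
    rw [Nat.choose_symm (by omega : m ≤ l), show l + m - (l - m) = 2 * m by omega,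
      show l - (l - m) = m by omega] at a1
    rw [a1, ← Nat.choose_symm (by omega : l - m ≤ l + m), show l + m - (l - m) = 2 * m by omega]
  have c2 : (2 * m).choose m * m ! * m ! = (2 * m)! := by
    have := Nat.choose_mul_factorial_mul_factorial (show m ≤ 2 * m by omega)
    rwa [show 2 * m - m = m by omega] at this
  have c3 : 4 ^ (2 * m) ≤ (4 * m + 1) * (l + m).choose (2 * m) := by
    have a1 := Nat.four_pow_le_two_mul_add_one_mul_central_binom (2 * m)
    have a2 : (2 * (2 * m)).choose (2 * m) ≤ (l + m).choose (2 * m) :=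
      Nat.choose_le_choose _ (by omega)
    rw [show 2 * (2 * m) + 1 = 4 * m + 1 by omega] at a1
    exact a1.trans (Nat.mul_le_mul_left _ a2)
  have c4 : rc l m * (m ! * m !) = (l + m).choose (2 * m) * (2 * m)! := by
    rw [rc, ← c2]
    have : (((l + m).choose l * l.choose m : ℕ) : ℝ) = _ := congrArg Nat.cast c1
    push_cast at this ⊢
    linear_combination (m ! * m ! : ℝ) * this
  have c5 : rc l m / 2 ^ m * (m ! * m ! * (1 / (m + m + 1)!)) =
      (l + m).choose (2 * m) / (2 ^ m * (2 * m + 1)) := by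
    have : ((2 * m)! : ℝ) ≠ 0 := by positivity
    rw [show m + m + 1 = 2 * m + 1 by omega, Nat.factorial_succ]
    push_cast
    field_simp
    linear_combination c4
  rw [c5, div_le_div_iff₀ (by positivity) (by positivity)]
  have c6 : (4 : ℝ) ^ (2 * m) ≤ (4 * m + 1) * (l + m).choose (2 * m) := by exact_mod_cast c3
  have c7 : (2 : ℝ) ^ l * 2 ^ m ≤ 4 * 4 ^ (2 * m) := by
    rw [← pow_add, show (4 : ℝ) = 2 ^ 2 by norm_num, ← pow_mul, ← pow_add]
    exact pow_le_pow_right₀ (by norm_num) (by omega)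
  have c8 : (3 : ℝ) * m ≤ l := by exact_mod_cast hm1
  have m0 : (0 : ℝ) ≤ m := by positivity
  have c9 : (4 * (m : ℝ) + 1) * (2 * m + 1) ≤ (2 * l + 1) ^ 2 := by nlinarith
  have n0 : (0 : ℝ) ≤ (l + m).choose (2 * m) := by positivity
  calc (2 : ℝ) ^ l * (2 ^ m * (2 * m + 1)) = 2 ^ l * 2 ^ m * (2 * m + 1) := by ring
    _ ≤ 4 * ((4 * m + 1) * (l + m).choose (2 * m)) * (2 * m + 1) :=
        mul_le_mul_of_nonneg_right (by linarith) (by positivity)
    _ = (l + m).choose (2 * m) * (4 * ((4 * m + 1) * (2 * m + 1))) := by ring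
    _ ≤ _ := by gcongr

theorem even_sum (a : ℕ → ℝ) (u : ℝ) (l : ℕ) :
    ∑ j ∈ Finset.range (2 * l + 1), a j * u ^ j + ∑ j ∈ Finset.range (2 * l + 1), a j * (-u) ^ j =
      2 * ∑ i ∈ Finset.range (l + 1), a (2 * i) * (u ^ 2) ^ i := by
  induction l with
  | zero => simp; ring
  | succ l ih =>
    have e : (-u) ^ (2 * l) = u ^ (2 * l) := by rw [pow_mul, neg_sq, ← pow_mul]
    rw [show 2 * (l + 1) + 1 = 2 * l + 1 + 1 + 1 by omega, Finset.sum_range_succ,
      Finset.sum_range_succ, Finset.sum_range_succ _ (2 * l + 1 + 1),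
      Finset.sum_range_succ _ (2 * l + 1), Finset.sum_range_succ _ (l + 1),
      show 2 * (l + 1) = 2 * l + 1 + 1 by omega, pow_succ (-u) (2 * l + 1),
      pow_succ (-u) (2 * l), e]
    linear_combination ih

theorem exists_r (l : ℕ) (G : ℝ[X]) (hd : G.natDegree ≤ 2 * l)
    (he : ∀ v, G.eval (-v) = G.eval v) : ∃ r : ℝ[X], r.natDegree ≤ l ∧ ∀ u : ℝ,
      r.eval (u ^ 2) = ∫ v in (-(1 / 2) : ℝ)..(1 / 2), G.eval v * G.eval (u - v) := by
  set a : ℕ → ℝ := fun j =>
    ∫ v in (-(1 / 2) : ℝ)..(1 / 2), G.eval v * ((derivative^[j] G).eval (-v) / j !) with ha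
  have h1 : ∀ u : ℝ, ∫ v in (-(1 / 2) : ℝ)..(1 / 2), G.eval v * G.eval (u - v) =
      ∑ j ∈ Finset.range (2 * l + 1), a j * u ^ j := fun u => by
    simp only [ha, ← intervalIntegral.integral_mul_const]
    rw [← intervalIntegral.integral_finsetSum fun j _ =>
      Continuous.intervalIntegrable (by fun_prop) _ _]
    refine intervalIntegral.integral_congr fun v _ => ?_
    simp only [sub_eq_neg_add, taylor_sum G (2 * l + 1) (by omega) (-v) u, Finset.mul_sum,
      mul_assoc]
  have h2 : ∀ u : ℝ, ∫ v in (-(1 / 2) : ℝ)..(1 / 2), G.eval v * G.eval (-u - v) =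
      ∫ v in (-(1 / 2) : ℝ)..(1 / 2), G.eval v * G.eval (u - v) := fun u => by
    have := intervalIntegral.integral_comp_neg (a := (-(1 / 2) : ℝ)) (b := 1 / 2)
      fun v => G.eval v * G.eval (u - v)
    rw [neg_neg] at this
    rw [← this]
    refine intervalIntegral.integral_congr fun v _ => ?_
    rw [he, ← he (u - -v), show -(u - -v) = -u - v by ring]
  refine ⟨∑ i ∈ Finset.range (l + 1), monomial i (a (2 * i)),
    natDegree_sum_le_of_forall_le _ _ fun k hk =>
      (natDegree_monomial_le _).trans (by simpa [Nat.lt_succ_iff] using hk), fun u => ?_⟩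
  have := even_sum a u l
  rw [← h1, ← h1, h2] at this
  simp only [eval_finsetSum, eval_monomial]
  linarith

theorem tri (F : ℝ → ℝ → ℝ) (hF : Continuous F.uncurry) :
    ∫ s in (0 : ℝ)..1, ∫ u in s..1, F s u = ∫ u in (0 : ℝ)..1, ∫ s in (0 : ℝ)..u, F s u := by
  have hi : IntegrableOn (Function.uncurry fun s u => if s < u then F s u else 0)
      (Set.uIoc (0 : ℝ) 1 ×ˢ Set.uIoc (0 : ℝ) 1) := by
    have : IntegrableOn F.uncurry (Set.uIoc (0 : ℝ) 1 ×ˢ Set.uIoc (0 : ℝ) 1) :=
      (hF.continuousOn.integrableOn_compact (isCompact_uIcc.prod isCompact_uIcc)).mono_set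
        (Set.prod_mono Set.uIoc_subset_uIcc Set.uIoc_subset_uIcc)
    refine (this.indicator (t := {p : ℝ × ℝ | p.1 < p.2})
      (measurableSet_lt measurable_fst measurable_snd)).congr_fun (fun p _ => ?_)
      (measurableSet_uIoc.prod measurableSet_uIoc)
    simp [Set.indicator, Function.uncurry]
  have := intervalIntegral_intervalIntegral_swap hi
  refine Eq.trans ?_ (this.trans ?_)
  · refine intervalIntegral.integral_congr fun s hs => ?_
    rw [Set.uIcc_of_le zero_le_one] at hs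
    rw [intervalIntegral.integral_of_le hs.2, intervalIntegral.integral_of_le zero_le_one,
      show Set.Ioc s 1 = Set.Ioc 0 1 ∩ Set.Ioi s by
        ext x; simp only [Set.mem_Ioc, Set.mem_inter_iff, Set.mem_Ioi]
        exact ⟨fun h => ⟨⟨hs.1.trans_lt h.1, h.2⟩, h.1⟩, fun h => ⟨h.2, h.1.2⟩⟩,
      ← setIntegral_indicator measurableSet_Ioi]
    rfl
  · refine intervalIntegral.integral_congr fun u hu => ?_
    rw [Set.uIcc_of_le zero_le_one] at hu
    rw [intervalIntegral.integral_of_le hu.1, intervalIntegral.integral_of_le zero_le_one,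
      integral_Ioc_eq_integral_Ioo (x := 0) (y := u),
      show Set.Ioo 0 u = Set.Ioc 0 1 ∩ Set.Iio u by
        ext x; simp only [Set.mem_Ioc, Set.mem_Ioo, Set.mem_inter_iff, Set.mem_Iio]
        exact ⟨fun h => ⟨⟨h.1, h.2.le.trans hu.2⟩, h.2⟩, fun h => ⟨h.1.1, h.2⟩⟩,
      ← setIntegral_indicator measurableSet_Iio]
    rfl

theorem four (G r : ℝ[X]) (he : ∀ v, G.eval (-v) = G.eval v)
    (hr : ∀ u : ℝ, r.eval (u ^ 2) = ∫ v in (-(1 / 2) : ℝ)..(1 / 2), G.eval v * G.eval (u - v))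
    (hE : ∀ u : ℝ, 0 ≤ u → u ≤ 1 →
      |∫ s in (0 : ℝ)..u, G.eval (s - 1 / 2) * G.eval (u - (s - 1 / 2))| ≤ 1) (k : ℝ) :
    |Phi (r.comp (X ^ 2)) k -
      (∫ v in (-(1 / 2) : ℝ)..(1 / 2), Real.cos (k * v) * G.eval v) ^ 2| ≤ 2 := by
  set c := ∫ v in (-(1 / 2) : ℝ)..(1 / 2), Real.cos (k * v) * G.eval v with hc
  set F : ℝ → ℝ → ℝ := fun v u => Real.cos (k * u) * (G.eval v * G.eval (u - v)) with hF
  have cF : Continuous F.uncurry := by
    show Continuous fun p : ℝ × ℝ => Real.cos (k * p.2) * (G.eval p.1 * G.eval (p.2 - p.1))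
    fun_prop
  have c1 : ∀ v, Continuous (F v) := fun v => by simp only [hF]; fun_prop
  have e1 : Phi (r.comp (X ^ 2)) k =
      ∫ v in (-(1 / 2) : ℝ)..(1 / 2), ∫ u in (-1 : ℝ)..1, F v u := by
    rw [intervalIntegral_intervalIntegral_swap
      ((cF.continuousOn.integrableOn_compact (isCompact_uIcc.prod isCompact_uIcc)).mono_set
        (Set.prod_mono Set.uIoc_subset_uIcc Set.uIoc_subset_uIcc))]
    simp only [Phi, eval_comp, eval_pow, eval_X, hr, hF, intervalIntegral.integral_const_mul]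
  have odd : ∫ w in (-(1 / 2) : ℝ)..(1 / 2), Real.sin (k * w) * G.eval w = 0 := by
    have := intervalIntegral.integral_comp_neg (a := (-(1 / 2) : ℝ)) (b := 1 / 2)
      fun w => Real.sin (k * w) * G.eval w
    simp only [neg_neg, mul_neg, Real.sin_neg, he, neg_mul, intervalIntegral.integral_neg] at this
    linarith
  have mid : ∀ v : ℝ, ∫ u in (v - 1 / 2)..(v + 1 / 2), F v u =
      Real.cos (k * v) * G.eval v * c := fun v => by
    have := intervalIntegral.integral_comp_add_left (a := (-(1 / 2) : ℝ)) (b := 1 / 2) (F v) v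
    rw [sub_eq_add_neg, ← this]
    have e : ∀ w : ℝ, F v (v + w) = Real.cos (k * v) * G.eval v * (Real.cos (k * w) * G.eval w) -
        Real.sin (k * v) * G.eval v * (Real.sin (k * w) * G.eval w) := fun w => by
      simp only [hF, mul_add, Real.cos_add, add_sub_cancel_left]; ring
    simp only [e]
    rw [intervalIntegral.integral_sub (Continuous.intervalIntegrable (by fun_prop) _ _)
      (Continuous.intervalIntegrable (by fun_prop) _ _), intervalIntegral.integral_const_mul,
      intervalIntegral.integral_const_mul, odd, mul_zero, sub_zero]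
  set T : ℝ → ℝ := fun v => ∫ u in (v + 1 / 2)..1, F v u with hT
  have left : ∀ v : ℝ, ∫ u in (-1 : ℝ)..(v - 1 / 2), F v u = T (-v) := fun v => by
    have := intervalIntegral.integral_comp_neg (a := (-v + 1 / 2 : ℝ)) (b := 1) (F v)
    rw [show -(-v + 1 / 2) = v - 1 / 2 by ring] at this
    rw [← this]
    refine intervalIntegral.integral_congr fun u _ => ?_
    simp only [hF, mul_neg, Real.cos_neg, he]
    rw [← he (u - -v), show -(u - -v) = -u - v by ring]
  have cT : Continuous T := by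
    have : Continuous fun v : ℝ => ∫ u in (1 : ℝ)..(v + 1 / 2), F v u :=
      intervalIntegral.continuous_parametric_intervalIntegral_of_continuous cF (by fun_prop)
    refine this.neg.congr fun v => ?_
    exact (intervalIntegral.integral_symm 1 (v + 1 / 2)).symm
  have split : ∀ v : ℝ, ∫ u in (-1 : ℝ)..1, F v u =
      T (-v) + Real.cos (k * v) * G.eval v * c + T v := fun v => by
    rw [← left, ← mid, intervalIntegral.integral_add_adjacent_intervals
      ((c1 v).intervalIntegrable _ _) ((c1 v).intervalIntegrable _ _),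
      intervalIntegral.integral_add_adjacent_intervals
      ((c1 v).intervalIntegrable _ _) ((c1 v).intervalIntegrable _ _)]
  have tb : |∫ v in (-(1 / 2) : ℝ)..(1 / 2), T v| ≤ 1 := by
    have h1 := intervalIntegral.integral_comp_sub_right (a := (0 : ℝ)) (b := 1) T (1 / 2)
    rw [zero_sub, show (1 : ℝ) - 1 / 2 = 1 / 2 by norm_num] at h1
    have h2 := tri (fun s u => F (s - 1 / 2) u) (by
      show Continuous fun p : ℝ × ℝ =>
        Real.cos (k * p.2) * (G.eval (p.1 - 1 / 2) * G.eval (p.2 - (p.1 - 1 / 2)))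
      fun_prop)
    simp only [hT, sub_add_cancel] at h1
    rw [hT, ← h1, h2]
    have := intervalIntegral.norm_integral_le_of_norm_le_const (a := (0 : ℝ)) (b := 1) (C := 1)
      (f := fun u => ∫ s in (0 : ℝ)..u, F (s - 1 / 2) u) fun u hu => by
      rw [Set.uIoc_of_le zero_le_one] at hu
      simp only [hF, intervalIntegral.integral_const_mul]
      rw [Real.norm_eq_abs, abs_mul]
      exact mul_le_one₀ (Real.abs_cos_le_one _) (abs_nonneg _) (hE u hu.1.le hu.2)
    simpa using this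
  have tn := intervalIntegral.integral_comp_neg (a := (-(1 / 2) : ℝ)) (b := 1 / 2) T
  rw [neg_neg] at tn
  rw [e1]
  simp only [split]
  rw [intervalIntegral.integral_add (Continuous.intervalIntegrable (by fun_prop) _ _)
      (cT.intervalIntegrable _ _),
    intervalIntegral.integral_add (Continuous.intervalIntegrable (by fun_prop) _ _)
      (Continuous.intervalIntegrable (by fun_prop) _ _), tn, intervalIntegral.integral_mul_const,
    ← hc]
  rw [abs_le] at tb ⊢
  constructor <;> nlinarith [tb.1, tb.2]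

theorem cert (l : ℕ) : ∃ G r : ℝ[X], r.natDegree ≤ l ∧ (∀ v, G.eval (-v) = G.eval v) ∧
    (∀ v : ℝ, -(1 / 2) ≤ v → v ≤ 1 / 2 → 1 ≤ G.eval v) ∧
    2 ^ l / (4 * (2 * l + 1) ^ 2) ≤ ∫ v in (-(1 / 2) : ℝ)..(1 / 2), G.eval v ∧
    ∀ k : ℝ, |Phi (r.comp (X ^ 2)) k -
      (∫ v in (-(1 / 2) : ℝ)..(1 / 2), Real.cos (k * v) * G.eval v) ^ 2| ≤ 2 := by
  obtain ⟨r, h1, h2⟩ := exists_r l (Ga l) (Ga_deg l) (Ga_even l)
  exact ⟨Ga l, r, h1, Ga_even l, one_le_Ga l, mass l, four _ r (Ga_even l) h2 (edge l)⟩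

end Pool.Agent.MP_66cee2_co.H44L
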